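import Mathlib
import Pool.Agent.Y250.BC.G
import Pool.Agent.Y250.BC.H
set_option autoImplicit false

/-!
# The inequality of Q1 for functions of bounded complexity with arbitrary polynomial phases

A set has line complexity `N` if it meets every horizontal and every vertical line in a union of at
most `N` intervals; a complex function `g` is tame of complexity `N` if this holds for the sets
`{Re g > s}`, `{Re g < -s}`, `{Im g > s}`, `{Im g < -s}`, `s > 0` (for instance: indicator functions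
of convex sets, functions which are monotone in each variable on a rectangle, all semialgebraic
functions, with `N` bounded by the complexity of the description).

For `q > 3` and `p > q / (q - 2)` (the conjectured range; in particular `p = q`, the inequality of
Q1) and all `f = e^{iφ} g`, `g` tame of complexity `N`,
`‖Ef‖_{L^q(ℝ³)} ≤ C (k^5 N)^κ (1 + (M / (k - 1)!)^{2 / (k - 1)}) ‖f‖_{L^p(U)}` with `C = C(p, q, κ)`,
`κ > 1 / q` arbitrary, if `φ` is real of class `C^k` with derivatives of order `k` at most `M`;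
nothing is assumed about the derivatives of lower order. For real polynomials `φ` of degree less
than `k` the factor is `(k^5 N)^κ`, whatever the coefficients of `φ` are. The range of `p` is optimal
up to the endpoint. Analytic phases of size `A` lose a power of `log A`, and for smooth `φ` the phases
`t φ` lose at most `|t|^ε`.
-/

namespace Pool.Agent.Results.MP_5ab805_an.BoundedComplexity

open MeasureTheory Set
open scoped ENNReal NNReal

/-- The Fourier extension operator of the paraboloid over `U`: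
`Ef(ξ) = ∫_U exp(-i (x₁ ξ₁ + x₂ ξ₂ + (x₁² + x₂²) ξ₃)) f(x) dx`, `ξ = (ξ₁, ξ₂, ξ₃)`. -/
noncomputable def ext (U : Set (ℝ × ℝ)) (f : ℝ × ℝ → ℂ) (ξ : ℝ × ℝ × ℝ) : ℂ :=
  ∫ x in U, Complex.exp
    (-((x.1 * ξ.1 + x.2 * ξ.2.1 + (x.1 ^ 2 + x.2 ^ 2) * ξ.2.2 : ℝ) : ℂ) * Complex.I) * f x

/-- `S` meets every horizontal and every vertical line in a union of at most `N` intervals (of any
kind, possibly empty). -/
def LineComplexity (N : ℕ) (S : Set (ℝ × ℝ)) : Prop :=
  (∀ y, ∃ I : Fin N → Set ℝ, (∀ i, (I i).OrdConnected) ∧ {x | (x, y) ∈ S} = ⋃ i, I i) ∧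
  ∀ x, ∃ I : Fin N → Set ℝ, (∀ i, (I i).OrdConnected) ∧ {y | (x, y) ∈ S} = ⋃ i, I i

/-- `U` is contained in the closed disc of radius `1/2`, `g` is measurable and vanishes off `U`, and
`{Re g > s}`, `{Re g < -s}`, `{Im g > s}`, `{Im g < -s}` have line complexity `N` for all `s > 0`. -/
structure Tame (U : Set (ℝ × ℝ)) (N : ℕ) (g : ℝ × ℝ → ℂ) : Prop where
  disc : ∀ x ∈ U, x.1 ^ 2 + x.2 ^ 2 ≤ 1 / 4
  measurable : Measurable g
  support : ∀ x, x ∉ U → g x = 0
  levels : ∀ s : ℝ, 0 < s → LineComplexity N {x | s < (g x).re} ∧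
    LineComplexity N {x | (g x).re < -s} ∧ LineComplexity N {x | s < (g x).im} ∧
    LineComplexity N {x | (g x).im < -s}

/-- The partial derivative in the first variable. -/
noncomputable def pd1 (f : ℝ × ℝ → ℝ) (x : ℝ × ℝ) : ℝ := deriv (fun s => f (s, x.2)) x.1

/-- The partial derivative in the second variable. -/
noncomputable def pd2 (f : ℝ × ℝ → ℝ) (x : ℝ × ℝ) : ℝ := deriv (fun s => f (x.1, s)) x.2

/-- `φ` is of class `C^k` and all partial derivatives `∂₁^i ∂₂^j φ` of order `i + j = k` are at most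
`M` in absolute value on the closed disc of radius `1/2`. -/
def DerivLE (k : ℕ) (M : ℝ) (φ : ℝ × ℝ → ℝ) : Prop := ContDiff ℝ k φ ∧
  ∀ i j : ℕ, i + j = k → ∀ x : ℝ × ℝ, x.1 ^ 2 + x.2 ^ 2 ≤ 1 / 4 → |pd1^[i] (pd2^[j] φ) x| ≤ M

/-- The function `e^{iφ} g`. -/
noncomputable def osc (φ : ℝ × ℝ → ℝ) (g : ℝ × ℝ → ℂ) (x : ℝ × ℝ) : ℂ :=
  Complex.exp (Complex.I * (φ x : ℝ)) * g x

/-- `‖Ef‖_{L^q(ℝ³)} ≤ C ‖f‖_{L^p(U)}` -/
def Bound (q p : ℝ) (U : Set (ℝ × ℝ)) (f : ℝ × ℝ → ℂ) (C : ℝ≥0∞) : Prop :=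
  eLpNorm (ext U f) (ENNReal.ofReal q) volume ≤
    C * eLpNorm f (ENNReal.ofReal p) (volume.restrict U)

/-- `q > 3`, `p > q / (q - 2)`, `κ > 1 / q`. -/
def Range (q p κ : ℝ) : Prop := 3 < q ∧ q / (q - 2) < p ∧ 1 / q < κ

/-- (1) For `q, p, κ` in this range there is `C` such that for all `k ≥ 2`, all real functions `φ` of
class `C^k` with derivatives of order `k` at most `M` on the disc and all tame `g` of complexity
`N ≥ 1`, `f = e^{iφ} g` satisfies
`‖Ef‖_{L^q(ℝ³)} ≤ C (1 + (M / (k - 1)!)^{2 / (k - 1)}) (k^5 N)^κ ‖f‖_{L^p(U)}`. -/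
def AllPhases : Prop := ∀ q p κ : ℝ, Range q p κ → ∃ C : ℝ≥0, ∀ (k : ℕ) (φ : ℝ × ℝ → ℝ) (M : ℝ≥0)
  (U : Set (ℝ × ℝ)) (N : ℕ) (g : ℝ × ℝ → ℂ), 2 ≤ k → DerivLE k M φ → 1 ≤ N → Tame U N g →
    Bound q p U (osc φ g)
      (C * ((1 + (M / (k - 1).factorial) ^ (2 / ((k : ℝ) - 1))) * ((k : ℝ≥0) ^ 5 * N) ^ κ : ℝ≥0))

/-- (2) If `q > 3` and `1 ≤ p < q / (q - 2)` there is no constant `C` with
`‖Eg‖_{L^q(ℝ³)} ≤ C ‖g‖_{L^p(U)}` for all tame `g` of complexity `1` on the closed disc `U` of radius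
`1/2`. -/
def Optimal : Prop := ∀ q p : ℝ, 3 < q → 1 ≤ p → p < q / (q - 2) → ∀ C : ℝ≥0,
  ∃ g : ℝ × ℝ → ℂ, Tame {x | x.1 ^ 2 + x.2 ^ 2 ≤ 1 / 4} 1 g ∧
    ¬ Bound q p {x | x.1 ^ 2 + x.2 ^ 2 ≤ 1 / 4} g C

/-- (3) For `q, p, κ` in the range of (1) there is `C` such that
`‖Ef‖_{L^q(ℝ³)} ≤ C R^4 ((2 + log (1 + A))^5 N)^κ ‖f‖_{L^p(U)}`, `f = e^{iφ} g`, for all smooth real
functions `φ` with `|∂₁^i ∂₂^j φ| ≤ A R^k k!` on the disc for `i + j = k`, `k ≥ 2`, where `A ≥ 0` and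
`R ≥ 1`, and all tame `g` of complexity `N ≥ 1`. -/
def AnalyticPhases : Prop := ∀ q p κ : ℝ, Range q p κ → ∃ C : ℝ≥0, ∀ (φ : ℝ × ℝ → ℝ) (A R : ℝ)
  (U : Set (ℝ × ℝ)) (N : ℕ) (g : ℝ × ℝ → ℂ), 0 ≤ A → 1 ≤ R →
    (∀ k : ℕ, 2 ≤ k → DerivLE k (A * R ^ k * k.factorial) φ) → 1 ≤ N → Tame U N g →
    Bound q p U (osc φ g) (C * ENNReal.ofReal (R ^ 4 * ((2 + Real.log (1 + A)) ^ 5 * N) ^ κ))

/-- (4) For `q, p, κ` in the range of (1), a smooth real function `φ` and `ε > 0` there is `C` such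
that `‖Ef‖_{L^q(ℝ³)} ≤ C |t|^ε N^κ ‖f‖_{L^p(U)}`, `f = e^{itφ} g`, for `|t| ≥ 1` and all tame `g` of
complexity `N ≥ 1`. -/
def SmoothPhases : Prop := ∀ q p κ : ℝ, Range q p κ → ∀ φ : ℝ × ℝ → ℝ, ContDiff ℝ (⊤ : ℕ∞) φ →
  ∀ ε : ℝ, 0 < ε → ∃ C : ℝ≥0, ∀ (t : ℝ) (U : Set (ℝ × ℝ)) (N : ℕ) (g : ℝ × ℝ → ℂ), 1 ≤ |t| →
    1 ≤ N → Tame U N g →
    Bound q p U (osc (fun x => t * φ x) g) (C * (ENNReal.ofReal (|t| ^ ε) * ((N : ℝ≥0) ^ κ : ℝ≥0)))

theorem Tame.toTame {U : Set (ℝ × ℝ)} {N : ℕ} {g : ℝ × ℝ → ℂ} (h : Tame U N g) :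
    Pool.Agent.Y250.BC.Tame N g :=
  ⟨h.measurable, fun x hx => h.support x fun hU => hx (h.disc x hU), h.levels⟩

theorem Bound.of (q p : ℝ) (U : Set (ℝ × ℝ)) (φ : ℝ × ℝ → ℝ) (hφ : Continuous φ) (g : ℝ × ℝ → ℂ)
    (hg : Measurable g) (h : ∀ x, x ∉ U → g x = 0) (C : ℝ≥0∞)
    (hb : eLpNorm (Pool.Agent.Y250.PT.ext univ fun x => Complex.exp (Complex.I * (φ x : ℝ)) * g x)
      (ENNReal.ofReal q) volume ≤ C * eLpNorm g (ENNReal.ofReal p) volume) :
    Bound q p U (osc φ g) C := by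
  unfold Bound
  have e1 : ext U (osc φ g) =
      Pool.Agent.Y250.PT.ext univ fun x => Complex.exp (Complex.I * (φ x : ℝ)) * g x := by
    ext ξ
    unfold ext Pool.Agent.Y250.PT.ext osc
    rw [setIntegral_univ, setIntegral_eq_integral_of_forall_compl_eq_zero]
    intro x hx
    simp only [h x hx, mul_zero]
  have e2 : eLpNorm g (ENNReal.ofReal p) volume ≤
      eLpNorm (osc φ g) (ENNReal.ofReal p) (volume.restrict U) := by
    have hn : ∀ x, ‖osc φ g x‖ = ‖g x‖ := by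
      intro x
      unfold osc
      rw [norm_mul, mul_comm Complex.I, Complex.norm_exp_ofReal_mul_I, one_mul]
    have e3 : eLpNorm (osc φ g) (ENNReal.ofReal p) (volume.restrict U) =
        eLpNorm g (ENNReal.ofReal p) (volume.restrict U) := eLpNorm_congr_norm_ae (ae_of_all _ hn)
    rw [e3]
    set T : Set (ℝ × ℝ) := {x | g x ≠ 0} with hT
    have hTm : MeasurableSet T := (measurableSet_eq_fun hg measurable_const).compl
    have hTU : T ⊆ U := by
      intro x hx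
      by_contra hc
      exact hx (h x hc)
    have e4 : eLpNorm g (ENNReal.ofReal p) volume = eLpNorm g (ENNReal.ofReal p) (volume.restrict T) := by
      rw [← eLpNorm_indicator_eq_eLpNorm_restrict hTm]
      congr 1
      ext x
      by_cases hx : x ∈ T
      · rw [indicator_of_mem hx]
      · rw [indicator_of_notMem hx]
        exact not_not.mp hx
    rw [e4]
    exact eLpNorm_mono_measure g (Measure.restrict_mono hTU le_rfl)
  rw [e1]
  exact hb.trans (mul_le_mul_right e2 C)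

/-- **Theorem.** The inequality `‖Ef‖_q ≤ C ‖f‖_p` of the restriction conjecture for the paraboloid in
`ℝ³`, in the whole conjectured range `q > 3`, `p > q/(q-2)` (in particular `p = q`), for all functions
`f = e^{iφ} g`, `g` tame, uniformly in all real polynomial phases `φ` of bounded degree
(`AllPhases`); the range is optimal up to the endpoint (`Optimal`); the losses for analytic phases
(`AnalyticPhases`) and for large multiples of smooth phases (`SmoothPhases`). -/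
theorem result : AllPhases ∧ Optimal ∧ AnalyticPhases ∧ SmoothPhases := by
  refine ⟨?_, ?_, ?_, ?_⟩
  · intro q p κ ⟨hq, hp, hκ⟩
    obtain ⟨C, hC⟩ := Pool.Agent.Y250.BC.main q p κ hq hp hκ
    refine ⟨C, fun k φ M U N g hk hφ hN h => ?_⟩
    obtain ⟨n, rfl⟩ : ∃ n, k = n + 1 := ⟨k - 1, by omega⟩
    have h1 := hC n φ M N g (by omega) hφ.1 (fun i j hij x hx => hφ.2 i j hij x hx) hN h.toTame
    have e1 : ((n + 1 : ℕ) : ℝ) - 1 = n := by push_cast; ring
    have e2 : ((n + 1 : ℕ) : ℝ≥0) = 1 + n := by push_cast; ring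
    rw [e1, e2, Nat.add_sub_cancel]
    exact Bound.of q p U φ hφ.1.continuous g h.measurable h.support _ h1
  · intro q p hq hp hpq C
    obtain ⟨g, hg, hlt⟩ := Pool.Agent.Y250.BC.knapp q p hq hp hpq C
    have hs : ∀ x, x ∉ {x : ℝ × ℝ | x.1 ^ 2 + x.2 ^ 2 ≤ 1 / 4} → g x = 0 := fun x hx => hg.supp x hx
    refine ⟨g, ⟨fun x hx => hx, hg.meas, hs, hg.lev⟩, fun hb => ?_⟩
    unfold Bound at hb
    have e1 : ext {x | x.1 ^ 2 + x.2 ^ 2 ≤ 1 / 4} g = Pool.Agent.Y250.PT.ext univ g := by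
      ext ξ
      unfold ext Pool.Agent.Y250.PT.ext
      rw [setIntegral_univ, setIntegral_eq_integral_of_forall_compl_eq_zero]
      intro x hx
      simp only [hs x hx, mul_zero]
    rw [e1] at hb
    refine absurd (lt_of_lt_of_le hlt hb) (not_lt.mpr ?_)
    gcongr
    exact Measure.restrict_le_self
  · intro q p κ ⟨hq, hp, hκ⟩
    obtain ⟨C, hC⟩ := Pool.Agent.Y250.BC.ana_lev q p κ hq hp hκ
    refine ⟨C, fun φ A R U N g hA hR hφ hN h => ?_⟩
    have h1 := hC φ A R N g hA hR (fun n => (hφ (n + 2) (by omega)).1.of_le (by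
      exact_mod_cast Nat.le_add_right n 2)) (fun k hk i j hij x hx => (hφ k hk).2 i j hij x hx) hN h.toTame
    exact Bound.of q p U φ (hφ 2 le_rfl).1.continuous g h.measurable h.support _ h1
  · intro q p κ ⟨hq, hp, hκ⟩ φ hφ ε hε
    obtain ⟨C, hC⟩ := Pool.Agent.Y250.BC.large_lev q p κ hq hp hκ φ (fun n =>
      hφ.of_le (by exact_mod_cast le_top)) ε hε
    refine ⟨C, fun t U N g ht hN h => ?_⟩
    have h1 := hC t N g ht hN h.toTame
    exact Bound.of q p U (fun x => t * φ x) (continuous_const.mul hφ.continuous) g h.measurable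
      h.support _ h1

end Pool.Agent.Results.MP_5ab805_an.BoundedComplexity
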