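import Mathlib
import Pool.Agent.Y295.NS.K
set_option autoImplicit false

/-!
# Extension from the paraboloid in space: densities with nested sections

Full range `q > 3`, `p > q / (q - 2)`, for `f = s h`, where `s(x) = M(a(x₁), b(x₂))` is a Schur
multiplier (for instance `s(x) = a(x₁) b(x₂)` with arbitrary measurable `|a|, |b| ≤ 1`) and `h` has a
majorant `κ ≥ 0` that controls its variation in `x₂` along one fixed measurable ordering `τ` of the
values of `x₂`. With `h = κ` this is the inequality of the problem itself for all `f = s κ`, `κ ≥ 0`,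
such that the sections `{v : κ(u, v) > λ}`, for all `u` and `λ > 0`, form a chain. No regularity in
either variable is assumed.
-/

namespace Pool.Agent.Results.MP_5ab805_an.NestedSections

open MeasureTheory Set
open scoped ENNReal NNReal

/-- The Fourier extension operator of the paraboloid over `U`:
`Ef(ξ) = ∫_U exp(-i (x₁ ξ₁ + x₂ ξ₂ + (x₁² + x₂²) ξ₃)) f(x) dx`, `ξ = (ξ₁, ξ₂, ξ₃)`. -/
noncomputable def ext (U : Set (ℝ × ℝ)) (f : ℝ × ℝ → ℂ) (ξ : ℝ × ℝ × ℝ) : ℂ :=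
  ∫ x in U, Complex.exp
    (-((x.1 * ξ.1 + x.2 * ξ.2.1 + (x.1 ^ 2 + x.2 ^ 2) * ξ.2.2 : ℝ) : ℂ) * Complex.I) * f x

/-- Let `q > 3` and `p > q / (q - 2)`. There is `C` such that the following holds. Let `H` be a
complex Hilbert space, `M` a bilinear form on `H` of norm at most one, `a, b` measurable functions
on the line with values in the unit ball of `H`, `U` a set in the closed disc of radius `1/2`,
`τ` a measurable function on the line, `κ ≥ 0` and `h` measurable functions on the plane that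
vanish off `U` and satisfy `|h(u,w) - h(u,v)| ≤ κ(u,v) - κ(u,w)` for all real `u, v, w` with
`τ(v) ≤ τ(w)`, and `f(u,v) = M(a(u), b(v)) h(u,v)`. Then `‖E f‖_{L^q(ℝ³)} ≤ C ‖κ‖_{L^p(ℝ²)}`. -/
theorem result (q p : ℝ) (hq : 3 < q) (hp : q / (q - 2) < p) :
    ∃ C : ℝ≥0, ∀ (H : Type) [NormedAddCommGroup H] [InnerProductSpace ℂ H] [CompleteSpace H]
      (M : H →L[ℂ] H →L[ℂ] ℂ) (a b : ℝ → H) (U : Set (ℝ × ℝ)) (τ : ℝ → ℝ) (κ : ℝ × ℝ → ℝ)
      (h f : ℝ × ℝ → ℂ),
      ‖M‖ ≤ 1 → StronglyMeasurable a → (∀ u, ‖a u‖ ≤ 1) → StronglyMeasurable b →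
      (∀ v, ‖b v‖ ≤ 1) → (∀ x ∈ U, x.1 ^ 2 + x.2 ^ 2 ≤ 1 / 4) → Measurable τ → Measurable κ →
      Measurable h → (∀ x, 0 ≤ κ x) → (∀ x, x ∉ U → κ x = 0) → (∀ x, x ∉ U → h x = 0) →
      (∀ u v w : ℝ, τ v ≤ τ w → ‖h (u, w) - h (u, v)‖ ≤ κ (u, v) - κ (u, w)) →
      (∀ x, f x = M (a x.1) (b x.2) * h x) →
      eLpNorm (ext U f) (ENNReal.ofReal q) volume ≤ C * eLpNorm κ (ENNReal.ofReal p) volume := by
  obtain ⟨C, hC, hmain⟩ := Pool.Agent.Y295.NS.kappaG q hq p hp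
  have hq0 : 0 < q := by linarith
  have hp0 : 0 < p := lt_trans (div_pos hq0 (by linarith)) hp
  refine ⟨((2 * Real.pi) ^ (3 / q)).toNNReal * C.toNNReal, ?_⟩
  intro H _ _ _ M a b U τ κ h f hM ham ha hbm hb hU hτ hκ hh hκ0 hκU hhU hvar hf
  have hUQ : ∀ x, x ∉ Pool.Agent.Y295.NS.Q0 → x ∉ U := by
    intro x hx hxU
    apply hx
    have h1 := hU x hxU
    refine ⟨⟨?_, ?_⟩, ⟨?_, ?_⟩⟩ <;> nlinarith [sq_nonneg x.1, sq_nonneg x.2]
  have haA : Pool.Agent.TH277.HT.Adm a := ⟨ham, ha⟩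
  have hbA : Pool.Agent.TH277.HT.Adm b := ⟨hbm, hb⟩
  have h1 := hmain H M a b τ κ h hM haA hbA hτ hκ hh hκ0 (fun z hz => hκU z (hUQ z hz))
    (fun z hz => hhU z (hUQ z hz)) hvar
  have e1 : (fun z => Pool.Agent.Y295.NS.tf M a b z * h z) = f := by
    ext z
    rw [hf z]
    by_cases hz : z ∈ Pool.Agent.Y295.NS.Q0
    · unfold Pool.Agent.Y295.NS.tf Pool.Agent.TH277.HT.tr
      rw [indicator_of_mem hz.1, indicator_of_mem hz.2]
    · rw [hhU z (hUQ z hz), mul_zero, mul_zero]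
  rw [e1] at h1
  have hf0 : ∀ x, x ∉ U → f x = 0 := by
    intro x hx
    rw [hf x, hhU x hx, mul_zero]
  have h2 := Pool.Agent.Y295.NS.ex_norm q hq0 U f hf0
  have h3 : eLpNorm κ (ENNReal.ofReal p) volume = Pool.Agent.Y295.NS.Np p κ := by
    rw [eLpNorm_eq_lintegral_rpow_enorm_toReal (by simpa using hp0) ENNReal.ofReal_ne_top,
      ENNReal.toReal_ofReal hp0.le]
    unfold Pool.Agent.Y295.NS.Np
    congr 1
    apply lintegral_congr
    intro z
    rw [Real.enorm_eq_ofReal (hκ0 z), ENNReal.ofReal_rpow_of_nonneg (hκ0 z) hp0.le]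
  rw [h3]
  have h4 : eLpNorm (ext U f) (ENNReal.ofReal q) volume =
      ENNReal.ofReal ((2 * Real.pi) ^ 3) ^ (1 / q) * Pool.Agent.Y295.NS.LL q f := h2
  rw [h4, ENNReal.coe_mul, mul_assoc]
  have h5 : ENNReal.ofReal ((2 * Real.pi) ^ 3) ^ (1 / q) =
      (((2 * Real.pi) ^ (3 / q)).toNNReal : ℝ≥0∞) := by
    rw [ENNReal.ofReal_rpow_of_nonneg (by positivity) (by positivity), ← Real.rpow_natCast,
      ← Real.rpow_mul (by positivity)]
    show ENNReal.ofReal _ = ENNReal.ofReal _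
    congr 2
    push_cast
    ring
  rw [h5]
  exact mul_le_mul_right h1 _

end Pool.Agent.Results.MP_5ab805_an.NestedSections
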