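import Mathlib
import Pool.Agent.Y250.PV.V5
import Pool.Agent.Y250.PV.V6
set_option autoImplicit false

/-!
# Extension from the paraboloid in space: oscillating densities `e^{iφ} g`

Full range `q > 3`, for real phases `φ` with `k ≥ 2` continuous derivatives, those of order `k` being
at most `M` on the disc (no bound on the derivatives of lower order), and amplitudes `g` of regularity
`s` in the mean, `‖g‖₂ ≤ K` and `‖g(· + h) - g‖₂ ≤ K |h|^s`, where `0 < s ≤ 1` and `s > 4/q - 1`: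
the norm of `E (e^{iφ} g)` in `L^q(ℝ³)` is at most `C k^5 (1 + (M / (k - 1)!)^{3 / (k - 1)}) K`. The
constant depends on `q` and `s` only.

* `M = 0`: all real polynomials `φ` of degree less than `k`, with arbitrary coefficients.
* The range of `s` is optimal up to the endpoint, already for `φ = 0`: a polynomial phase does not
  need additional regularity of the amplitude.
* Real analytic phases of size `A` lose at most a power of `log A`, and for a smooth phase `φ` the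
  phases `t φ` lose at most `|t|^ε`.
* `s = 1/3` serves all `q > 3`; functions in the Sobolev space `H^{1/3}`, in particular bounded
  functions of bounded variation and indicator functions of sets of finite perimeter (`s = 1/2`).
-/

namespace Pool.Agent.Results.MP_5ab805_an.PolynomialTwists

open MeasureTheory Set
open scoped ENNReal NNReal

/-- The Fourier extension operator of the paraboloid over `U`:
`Ef(ξ) = ∫_U exp(-i (x₁ ξ₁ + x₂ ξ₂ + (x₁² + x₂²) ξ₃)) f(x) dx`, `ξ = (ξ₁, ξ₂, ξ₃)`. -/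
noncomputable def ext (U : Set (ℝ × ℝ)) (f : ℝ × ℝ → ℂ) (ξ : ℝ × ℝ × ℝ) : ℂ :=
  ∫ x in U, Complex.exp
    (-((x.1 * ξ.1 + x.2 * ξ.2.1 + (x.1 ^ 2 + x.2 ^ 2) * ξ.2.2 : ℝ) : ℂ) * Complex.I) * f x

/-- `U` is contained in the closed disc of radius `1/2`, `g` is measurable and vanishes off `U`,
its `L²` norm is at most `K` and the `L²` norm of `g(· + h) - g` is at most `K |h|^s` for every
`h = (h₁, h₂)`, where `|h| = max |h₁| |h₂|`. -/
structure Amplitude (U : Set (ℝ × ℝ)) (s : ℝ) (g : ℝ × ℝ → ℂ) (K : ℝ≥0) : Prop where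
  disc : ∀ x ∈ U, x.1 ^ 2 + x.2 ^ 2 ≤ 1 / 4
  measurable : Measurable g
  support : ∀ x, x ∉ U → g x = 0
  norm_le : eLpNorm g 2 volume ≤ K
  regular : ∀ h : ℝ × ℝ,
    eLpNorm (fun x => g (x + h) - g x) 2 volume ≤ K * ENNReal.ofReal ((max |h.1| |h.2|) ^ s)

/-- The partial derivative in the first variable. -/
noncomputable def pd1 (f : ℝ × ℝ → ℝ) (x : ℝ × ℝ) : ℝ := deriv (fun s => f (s, x.2)) x.1

/-- The partial derivative in the second variable. -/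
noncomputable def pd2 (f : ℝ × ℝ → ℝ) (x : ℝ × ℝ) : ℝ := deriv (fun s => f (x.1, s)) x.2

/-- `φ` is of class `C^k` and all partial derivatives `∂₁^i ∂₂^j φ` of order `i + j = k` are at most
`M` in absolute value on the closed disc of radius `1/2`. -/
def DerivLE (k : ℕ) (M : ℝ) (φ : ℝ × ℝ → ℝ) : Prop := ContDiff ℝ k φ ∧
  ∀ i j : ℕ, i + j = k → ∀ x : ℝ × ℝ, x.1 ^ 2 + x.2 ^ 2 ≤ 1 / 4 → |pd1^[i] (pd2^[j] φ) x| ≤ M

/-- The `L^q(ℝ³)` norm of `E (e^{iφ} g)`. -/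
noncomputable def nrm (q : ℝ) (U : Set (ℝ × ℝ)) (φ : ℝ × ℝ → ℝ) (g : ℝ × ℝ → ℂ) : ℝ≥0∞ :=
  eLpNorm (ext U fun x => Complex.exp (Complex.I * (φ x : ℝ)) * g x) (ENNReal.ofReal q) volume

/-- The factor `k^5 (1 + (M / (k - 1)!)^{3 / (k - 1)})`. -/
noncomputable def loss (k : ℕ) (M : ℝ≥0) : ℝ≥0 :=
  (k : ℝ≥0) ^ 5 * (1 + (M / (k - 1).factorial) ^ (3 / ((k : ℝ) - 1)))

/-- `q > 3`, `0 < s ≤ 1` and `s > 4 / q - 1`. -/
def Range (q s : ℝ) : Prop := 3 < q ∧ 0 < s ∧ s ≤ 1 ∧ 4 / q - 1 < s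

/-- (1) For `q, s` in this range there is `C` such that for `k ≥ 2`, every real function `φ` of
class `C^k` with derivatives of order `k` at most `M` on the disc and every amplitude `g` of
regularity `s` and norm at most `K`,
`‖E (e^{iφ} g)‖_{L^q(ℝ³)} ≤ C k^5 (1 + (M / (k - 1)!)^{3 / (k - 1)}) K`. -/
def AllPhases : Prop := ∀ q s : ℝ, Range q s → ∃ C : ℝ≥0, ∀ (k : ℕ) (φ : ℝ × ℝ → ℝ) (M : ℝ≥0)
  (U : Set (ℝ × ℝ)) (g : ℝ × ℝ → ℂ) (K : ℝ≥0), 2 ≤ k → DerivLE k M φ → Amplitude U s g K →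
    nrm q U φ g ≤ C * loss k M * K

/-- (2) If `q > 3` and `0 < s < 4 / q - 1` there is no constant `C` with `‖Eg‖_{L^q(ℝ³)} ≤ C K` for all
amplitudes `g` of regularity `s` and norm at most `K` on the closed disc `U` of radius `1/2`. -/
def Optimal : Prop := ∀ q s : ℝ, 3 < q → 0 < s → s < 4 / q - 1 → ∀ C : ℝ≥0,
  ∃ (g : ℝ × ℝ → ℂ) (K : ℝ≥0), Amplitude {x | x.1 ^ 2 + x.2 ^ 2 ≤ 1 / 4} s g K ∧
    C * K < nrm q {x | x.1 ^ 2 + x.2 ^ 2 ≤ 1 / 4} 0 g

/-- (3) For `q, s` in the range of (1) there is `C` such that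
`‖E (e^{iφ} g)‖_{L^q(ℝ³)} ≤ C R^6 (2 + log (1 + A))^5 K` for all smooth real functions `φ` with
`|∂₁^i ∂₂^j φ| ≤ A R^k k!` on the disc for `i + j = k`, `k ≥ 2`, where `A ≥ 0` and `R ≥ 1`. -/
def AnalyticPhases : Prop := ∀ q s : ℝ, Range q s → ∃ C : ℝ≥0, ∀ (φ : ℝ × ℝ → ℝ) (A R : ℝ)
  (U : Set (ℝ × ℝ)) (g : ℝ × ℝ → ℂ) (K : ℝ≥0), 0 ≤ A → 1 ≤ R →
    (∀ k : ℕ, 2 ≤ k → DerivLE k (A * R ^ k * k.factorial) φ) → Amplitude U s g K →
    nrm q U φ g ≤ C * ENNReal.ofReal (R ^ 6 * (2 + Real.log (1 + A)) ^ 5) * K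

/-- (4) For `q, s` in the range of (1), a smooth real function `φ` and `ε > 0` there is `C` such that
`‖E (e^{itφ} g)‖_{L^q(ℝ³)} ≤ C |t|^ε K` for `|t| ≥ 1`. -/
def SmoothPhases : Prop := ∀ q s : ℝ, Range q s → ∀ φ : ℝ × ℝ → ℝ, ContDiff ℝ (⊤ : ℕ∞) φ →
  ∀ ε : ℝ, 0 < ε → ∃ C : ℝ≥0, ∀ (t : ℝ) (U : Set (ℝ × ℝ)) (g : ℝ × ℝ → ℂ) (K : ℝ≥0), 1 ≤ |t| →
    Amplitude U s g K → nrm q U (fun x => t * φ x) g ≤ C * ENNReal.ofReal (|t| ^ ε) * K

theorem Amplitude.toReg {U : Set (ℝ × ℝ)} {s : ℝ} {g : ℝ × ℝ → ℂ} {K : ℝ≥0}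
    (h : Amplitude U s g K) : Pool.Agent.Y250.PT.Reg g s K :=
  ⟨h.measurable, fun x hx => h.support x fun hU => absurd (h.disc x hU) (not_le.mpr hx),
    h.norm_le, h.regular⟩

theorem nrm_eq (q : ℝ) (U : Set (ℝ × ℝ)) (φ : ℝ × ℝ → ℝ) (g : ℝ × ℝ → ℂ)
    (h : ∀ x, x ∉ U → g x = 0) : nrm q U φ g =
    eLpNorm (Pool.Agent.Y250.PT.ext univ fun x => Complex.exp (Complex.I * (φ x : ℝ)) * g x)
      (ENNReal.ofReal q) volume := by
  unfold nrm
  congr 1
  ext ξ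
  unfold ext Pool.Agent.Y250.PT.ext
  rw [setIntegral_univ, setIntegral_eq_integral_of_forall_compl_eq_zero]
  intro x hx
  simp only [h x hx, mul_zero]

/-- **Theorem.** Densities `e^{iφ} g` with arbitrarily fast oscillation: the full range `q > 3` for
amplitudes of regularity `s > 4/q - 1`, uniformly in all polynomial phases (`AllPhases`); this
regularity is optimal (`Optimal`); the losses for analytic phases (`AnalyticPhases`) and for large
multiples of smooth phases (`SmoothPhases`). -/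
theorem result : AllPhases ∧ Optimal ∧ AnalyticPhases ∧ SmoothPhases := by
  refine ⟨?_, ?_, ?_, ?_⟩
  · intro q s ⟨hq, hs0, hs1, hs⟩
    obtain ⟨C, hC⟩ := Pool.Agent.Y250.PV.smooth3 q s hq hs0 hs hs1
    refine ⟨C, fun k φ M U g K hk hφ h => ?_⟩
    obtain ⟨n, rfl⟩ : ∃ n, k = n + 1 := ⟨k - 1, by omega⟩
    have h1 := hC n φ M g K (by omega) hφ.1 (fun i j hij x hx => hφ.2 i j hij x hx) h.toReg
    have e1 : ((n + 1 : ℕ) : ℝ) - 1 = n := by push_cast; ring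
    have e2 : ((n + 1 : ℕ) : ℝ≥0) = 1 + n := by push_cast; ring
    rw [nrm_eq q U φ g h.support]
    unfold loss
    rw [e1, e2, Nat.add_sub_cancel]
    refine h1.trans (le_of_eq ?_)
    rw [ENNReal.coe_mul, mul_assoc]
  · intro q s hq hs0 hs C
    obtain ⟨g, K, hg, hlt⟩ := Pool.Agent.Y250.PV.knapp q s hq hs0 hs C
    refine ⟨g, K, ⟨fun x hx => hx, hg.meas, fun x hx => hg.supp x (not_le.mp hx), hg.two, hg.diff⟩, ?_⟩
    rw [nrm_eq q {x : ℝ × ℝ | x.1 ^ 2 + x.2 ^ 2 ≤ 1 / 4} 0 g (fun x hx => hg.supp x (not_le.mp hx))]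
    simpa using hlt
  · intro q s ⟨hq, hs0, hs1, hs⟩
    obtain ⟨C, hC⟩ := Pool.Agent.Y250.PV.ana3 q s hq hs0 hs hs1
    refine ⟨C, fun φ A R U g K hA hR hφ h => ?_⟩
    rw [nrm_eq q U φ g h.support]
    exact hC φ A R g K hA hR (fun n => (hφ (n + 2) (by omega)).1.of_le (by
      exact_mod_cast Nat.le_add_right n 2)) (fun k hk i j hij x hx => (hφ k hk).2 i j hij x hx) h.toReg
  · intro q s ⟨hq, hs0, hs1, hs⟩ φ hφ ε hε
    obtain ⟨C, hC⟩ := Pool.Agent.Y250.PV.large3 q s hq hs0 hs hs1 φ (fun n =>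
      hφ.of_le (by exact_mod_cast le_top)) ε hε
    refine ⟨C, fun t U g K ht h => ?_⟩
    rw [nrm_eq q U (fun x => t * φ x) g h.support]
    exact hC t g K ht h.toReg

end Pool.Agent.Results.MP_5ab805_an.PolynomialTwists
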