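import Mathlib
import Pool.Agent.Y295.ST.K
set_option autoImplicit false

/-!
# Extension from the paraboloid in space: functions that are monotone along rays, star-shaped sets

Full range `q > 3` for functions `f` with controlled variation along the rays from a centre `c`.

* The variation is controlled pointwise by `κ ≥ 0`:
  `|f(c + s e^{iθ}) - f(c + r e^{iθ})| ≤ κ(c + r e^{iθ}) - κ(c + s e^{iθ})` for `0 < r ≤ s`. Then
  `‖E f‖_q ≤ C ‖κ‖_p` for every `p > q/(q-2)`, in particular for `p = q`. For nonnegative functions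
  which are nonincreasing along the rays, for instance indicators of sets that are star-shaped about
  `c`, `κ = f` and this is the inequality of the conjecture. Nothing is assumed on the dependence on
  the angle `θ`.
* The variation is controlled in `L^q` of the circle by a function `κ(r)` of the radius.
-/

namespace Pool.Agent.Results.MP_5ab805_an.RadialVariation

open MeasureTheory Set
open scoped ENNReal NNReal

/-- The Fourier extension operator of the paraboloid over `U`: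
`Ef(ξ) = ∫_U exp(-i (x₁ ξ₁ + x₂ ξ₂ + (x₁² + x₂²) ξ₃)) f(x) dx`, `ξ = (ξ₁, ξ₂, ξ₃)`. -/
noncomputable def ext (U : Set (ℝ × ℝ)) (f : ℝ × ℝ → ℂ) (ξ : ℝ × ℝ × ℝ) : ℂ :=
  ∫ x in U, Complex.exp
    (-((x.1 * ξ.1 + x.2 * ξ.2.1 + (x.1 ^ 2 + x.2 ^ 2) * ξ.2.2 : ℝ) : ℂ) * Complex.I) * f x

/-- The point with polar coordinates `(r, θ)` about `c`. -/
noncomputable def pt (c : ℝ × ℝ) (r θ : ℝ) : ℝ × ℝ :=
  (c.1 + r * Real.cos θ, c.2 + r * Real.sin θ)

/-- Let `q > 3` and `D ≥ 0`.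
(a) For every `p > q/(q-2)` there is `C` such that for every set `U` in the closed disc of radius
`1/2` about `0`, every centre `c` with `|c| ≤ D`, every measurable `f` which vanishes off `U` and
every measurable `κ ≥ 0` on the plane with
`|f(c + s e^{iθ}) - f(c + r e^{iθ})| ≤ κ(c + r e^{iθ}) - κ(c + s e^{iθ})` for all `θ` and
`0 < r ≤ s`, one has `‖E f‖_{L^q(ℝ³)} ≤ C ‖κ‖_{L^p(ℝ²)}`.
(b) There is `C` such that for all `U`, `c`, `f` as above and every nonincreasing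
`κ : (0,∞) → [0,∞)` with `‖f(c + s e^{iθ}) - f(c + r e^{iθ})‖_{L^q(dθ)} ≤ κ(r) - κ(s)` for
`0 < r ≤ s`, one has `‖E f‖_{L^q(ℝ³)} ≤ C (∫_0^∞ κ(r)^q r dr)^{1/q}`. -/
theorem result (q : ℝ) (hq : 3 < q) (D : ℝ) (hD : 0 ≤ D) :
    (∀ p : ℝ, q / (q - 2) < p → ∃ C : ℝ≥0, ∀ (U : Set (ℝ × ℝ)) (f : ℝ × ℝ → ℂ) (c : ℝ × ℝ)
      (κ : ℝ × ℝ → ℝ),
      (∀ x ∈ U, x.1 ^ 2 + x.2 ^ 2 ≤ 1 / 4) → Measurable f → (∀ x, x ∉ U → f x = 0) →
      c.1 ^ 2 + c.2 ^ 2 ≤ D ^ 2 → Measurable κ → (∀ x, 0 ≤ κ x) →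
      (∀ r s θ, 0 < r → r ≤ s → ‖f (pt c s θ) - f (pt c r θ)‖ ≤ κ (pt c r θ) - κ (pt c s θ)) →
      eLpNorm (ext U f) (ENNReal.ofReal q) volume ≤ C * eLpNorm κ (ENNReal.ofReal p) volume) ∧
    (∃ C : ℝ≥0, ∀ (U : Set (ℝ × ℝ)) (f : ℝ × ℝ → ℂ) (c : ℝ × ℝ) (κ : ℝ → ℝ),
      (∀ x ∈ U, x.1 ^ 2 + x.2 ^ 2 ≤ 1 / 4) → Measurable f → (∀ x, x ∉ U → f x = 0) →
      c.1 ^ 2 + c.2 ^ 2 ≤ D ^ 2 → AntitoneOn κ (Ioi 0) → (∀ r, 0 < r → 0 ≤ κ r) →
      (∀ r s, 0 < r → r ≤ s →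
        eLpNorm (fun θ => f (pt c s θ) - f (pt c r θ)) (ENNReal.ofReal q)
          (volume.restrict (Ioo (-Real.pi) Real.pi)) ≤ ENNReal.ofReal (κ r - κ s)) →
      eLpNorm (ext U f) (ENNReal.ofReal q) volume ≤
        C * (∫⁻ r in Ioi (0 : ℝ), ENNReal.ofReal (r * κ r ^ q)) ^ (1 / q)) := by
  constructor
  · intro p hp
    obtain ⟨C, hC, h⟩ := Pool.Agent.Y295.ST.partA q hq p hp D hD
    refine ⟨C.toNNReal, ?_⟩
    intro U f c κ hU hfm hf hc hκ hκ0 hv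
    exact h U hU f hfm hf c hc κ hκ hκ0 hv
  · obtain ⟨C, hC, h⟩ := Pool.Agent.Y250.AN.partC q hq D hD
    refine ⟨C.toNNReal, ?_⟩
    intro U f c κ hU hfm hf hc hκ hκ0 hv
    have h1 := h U hU f hfm hf c hc κ hκ hκ0 hv
    have e1 : ∫⁻ r in Ioi (0 : ℝ), ENNReal.ofReal r * ENNReal.ofReal (κ r) ^ q =
        ∫⁻ r in Ioi (0 : ℝ), ENNReal.ofReal (r * κ r ^ q) := by
      apply setLIntegral_congr_fun measurableSet_Ioi
      intro r hr
      have hr0 : 0 < r := hr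
      simp only
      rw [ENNReal.ofReal_rpow_of_nonneg (hκ0 r hr0) (by linarith), ← ENNReal.ofReal_mul hr0.le]
    rw [e1] at h1
    exact h1

end Pool.Agent.Results.MP_5ab805_an.RadialVariation
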